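import Mathlib
import Pool.Agent.Q123.Decay

/-!
The decay number of a graph is at most twice the chromatic number of the complement (minus one for
2-edge-connected graphs other than the triangle).
-/

namespace Pool.Agent.Results.MP_efdca5_co.DecayBound

universe u

/-- `G` is `k`-edge-connected: any two distinct vertices of `G` are joined by `k` pairwise
edge-disjoint paths. -/
def EdgeConn {V : Type u} (G : SimpleGraph V) (k : ℕ) : Prop :=
  ∀ u v : V, u ≠ v → ∃ p : Fin k → G.Path u v, ∀ i j : Fin k, i ≠ j →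
    ∀ e : Sym2 V, ¬ (e ∈ (p i : G.Walk u v).edges ∧ e ∈ (p j : G.Walk u v).edges)

/-- `y_G(A) = 2 c(G - A) - |A| - 1`, where `c(G - A)` is the number of connected components of the
spanning subgraph `G - A`. -/
noncomputable def yOf {V : Type u} (G : SimpleGraph V) (A : Set (Sym2 V)) : ℤ :=
  2 * (Nat.card (G.deleteEdges A).ConnectedComponent : ℤ) - (A.ncard : ℤ) - 1

/-- `y_G`, the maximum of `y_G(A)` over all sets `A` of edges of `G` (see `yMax_isGreatest`). -/
noncomputable def yMax {V : Type u} (G : SimpleGraph V) : ℤ :=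
  sSup {y : ℤ | ∃ A : Set (Sym2 V), A ⊆ G.edgeSet ∧ y = yOf G A}

/-- `yMax G` is attained. -/
lemma yMax_isGreatest {V : Type u} [Finite V] (G : SimpleGraph V) :
    IsGreatest {y : ℤ | ∃ A : Set (Sym2 V), A ⊆ G.edgeSet ∧ y = yOf G A} (yMax G) := by
  have hne : {y : ℤ | ∃ A : Set (Sym2 V), A ⊆ G.edgeSet ∧ y = yOf G A}.Nonempty :=
    ⟨yOf G ∅, ∅, Set.empty_subset _, rfl⟩
  have hfin : {y : ℤ | ∃ A : Set (Sym2 V), A ⊆ G.edgeSet ∧ y = yOf G A}.Finite := by
    have : Finite (Set (Sym2 V)) := inferInstance
    refine (Set.finite_range (fun A : Set (Sym2 V) => yOf G A)).subset ?_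
    rintro y ⟨A, _, rfl⟩
    exact ⟨A, rfl⟩
  exact ⟨hne.csSup_mem hfin, fun y hy => le_csSup hfin.bddAbove hy⟩

lemma exists_cross {V : Type u} [Fintype V] [DecidableEq V] (G : SimpleGraph V) (k : ℕ)
    (h : EdgeConn G k) (U : Finset V) (hU : U.Nonempty) (hU' : U ≠ Finset.univ) :
    ∃ X : Finset (Sym2 V), k ≤ X.card ∧
      ∀ e ∈ X, ∃ u ∈ U, ∃ w ∉ U, G.Adj u w ∧ e = s(u, w) := by
  classical
  obtain ⟨a, ha⟩ := hU
  obtain ⟨b, hb⟩ : ∃ b, b ∉ U := by
    by_contra hcon
    push Not at hcon
    exact hU' (Finset.eq_univ_iff_forall.2 hcon)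
  have hab : a ≠ b := by
    rintro rfl
    exact hb ha
  obtain ⟨p, hp⟩ := h a b hab
  have hd : ∀ i : Fin k, ∃ d ∈ (p i : G.Walk a b).darts,
      d.fst ∈ (U : Set V) ∧ d.snd ∉ (U : Set V) := fun i =>
    SimpleGraph.Walk.exists_boundary_dart (p i : G.Walk a b) (U : Set V) (by simpa using ha)
      (by simpa using hb)
  choose d hd1 hd2 hd3 using hd
  have hinj : Function.Injective (fun i => (d i).edge) := by
    intro i j hij
    by_contra hne
    refine hp i j hne (d i).edge ⟨?_, ?_⟩
    · exact List.mem_map_of_mem (hd1 i)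
    · have : (d i).edge = (d j).edge := hij
      rw [this]
      exact List.mem_map_of_mem (hd1 j)
  refine ⟨Finset.univ.image (fun i => (d i).edge), ?_, ?_⟩
  · rw [Finset.card_image_of_injective _ hinj]
    simp
  · intro e he
    obtain ⟨i, _, rfl⟩ := Finset.mem_image.1 he
    exact ⟨(d i).fst, by simpa using hd2 i, (d i).snd, by simpa using hd3 i, (d i).adj, rfl⟩

lemma bound_empty {V : Type u} [Fintype V] [IsEmpty V] (G : SimpleGraph V) (A : Set (Sym2 V)) :
    yOf G A ≤ -1 := by
  have : IsEmpty (G.deleteEdges A).ConnectedComponent := by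
    constructor
    intro c
    induction c using SimpleGraph.ConnectedComponent.ind with
    | h v => exact isEmptyElim v
  unfold yOf
  have h0 : (0 : ℤ) ≤ (A.ncard : ℤ) := by positivity
  rw [Nat.card_of_isEmpty]
  push_cast
  linarith

/-- For `λ ∈ {1, 2}`, every `λ`-edge-connected finite simple graph `G`, planar or not, which is not
a triangle satisfies `y_G ≤ 2 χ(Gᶜ) - λ + 1`. -/
theorem result {V : Type u} [Finite V] (G : SimpleGraph V) (lam : ℕ) (hlam : lam = 1 ∨ lam = 2)
    (hconn : EdgeConn G lam) (hC : IsEmpty (G ≃g SimpleGraph.cycleGraph 3)) :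
    yMax G ≤ 2 * (Gᶜ.chromaticNumber.toNat : ℤ) - (lam : ℤ) + 1 := by
  classical
  have := Fintype.ofFinite V
  obtain ⟨⟨A, hAG, hyA⟩, _⟩ := yMax_isGreatest G
  rw [hyA]
  rcases isEmpty_or_nonempty V with hV | hV
  · have h1 := bound_empty G A
    have h2 : (0 : ℤ) ≤ (Gᶜ.chromaticNumber.toNat : ℤ) := by positivity
    rcases hlam with rfl | rfl <;> push_cast <;> linarith
  · -- a colouring of the complement
    have hcol : Gᶜ.Colorable (Gᶜ.chromaticNumber.toNat) :=
      SimpleGraph.colorable_chromaticNumber (SimpleGraph.colorable_of_fintype Gᶜ)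
    obtain ⟨f⟩ := hcol
    have hf : ∀ u v, u ≠ v → f u = f v → G.Adj u v := by
      intro u v huv hfuv
      by_contra hnot
      exact f.valid ((SimpleGraph.compl_adj G u v).2 ⟨huv, hnot⟩) hfuv
    let g : V → (G.deleteEdges A).ConnectedComponent := (G.deleteEdges A).connectedComponentMk
    have hg : (Finset.univ.image g).card = Nat.card (G.deleteEdges A).ConnectedComponent := by
      have : Finset.univ.image g = Finset.univ := by
        apply Finset.eq_univ_iff_forall.2
        intro c
        induction c using SimpleGraph.ConnectedComponent.ind with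
        | h v => exact Finset.mem_image_of_mem g (Finset.mem_univ v)
      rw [this, Finset.card_univ, Nat.card_eq_fintype_card]
    have hA : ∀ u v, G.Adj u v → g u ≠ g v → s(u, v) ∈ A.toFinset := by
      intro u v huv hne
      by_contra hnot
      apply hne
      apply SimpleGraph.ConnectedComponent.sound
      apply SimpleGraph.Adj.reachable
      rw [SimpleGraph.deleteEdges_adj]
      exact ⟨huv, by simpa using hnot⟩
    have hcard : (A.toFinset.card : ℤ) = (A.ncard : ℤ) := by
      rw [Set.ncard_eq_toFinset_card']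
    rcases hlam with rfl | rfl
    · have := Q123.Decay.bound_one G g A.toFinset hA (by
        intro U h1 h2
        obtain ⟨X, hX, hX'⟩ := exists_cross G 1 hconn U h1 h2
        obtain ⟨e, he⟩ := Finset.card_pos.1 (by omega : 0 < X.card)
        obtain ⟨u, hu, w, hw, hadj, _⟩ := hX' e he
        exact ⟨u, hu, w, hw, hadj⟩) f hf
      rw [hg, hcard] at this
      unfold yOf
      push_cast
      linarith
    · have := Q123.Decay.bound_two G g A.toFinset hA
        (fun U h1 h2 => exists_cross G 2 hconn U h1 h2) (by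
        rintro ⟨hcomp, hcard3⟩
        have htop : G = ⊤ := by
          ext u v
          rw [SimpleGraph.top_adj]
          exact ⟨fun h => h.ne, hcomp u v⟩
        apply hC.false
        rw [SimpleGraph.cycleGraph_three_eq_top, htop]
        exact SimpleGraph.Iso.completeGraph (Fintype.equivFinOfCardEq hcard3)) f hf
      rw [hg, hcard] at this
      unfold yOf
      push_cast
      linarith

end Pool.Agent.Results.MP_efdca5_co.DecayBound
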